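import Pool.Agent.K7.H48.Fan

/-!
# Every forcing preserves winning strategies in the strong countable fan tightness game

Idea of the proof. If `σ` is a winning strategy of II, then for each position there is an
open neighbourhood `U` of `x` all of whose points are the answer of `σ` to some legal set: otherwise
the set of the points which are not answers is legal, but has no legal answer. So the opponent of
the player choosing points in open neighbourhoods of `x` has a winning strategy `τ`. For every
ground model open set `W` containing `x`, the tree of the plays against `τ` which avoid `W` is
well-founded, so `τ` is still a winning strategy in the extension. There II answers with the least
point of the set played by I in the neighbourhood given by `τ`.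
-/

set_option autoImplicit false

namespace Pool.Agent.Results.MP_07c8c2_lc.EveryForcingPreserves

open Pool.Agent.Helper669.Forcing Pool.Agent.K7.H48.Fan

universe u v

/-- For every forcing notion `P` and every topological space `X`: if II has a winning strategy in
`G₁(Ω_x, Ω_x)`, then all conditions of `P` force that II has one on `X` with the topology generated
by the ground model topology as a base. In particular, if II has a winning strategy in the strong
countable fan tightness game at all points of `X`, then the same holds in the extension. -/
theorem result (P : Type u) [Preorder P] (X : Type v) [TopologicalSpace X] :
    (∀ x : X, IIWins x → ∀ p : P, p ∈ fIIWins P x) ∧
    ((∀ x : X, IIWins x) → ∀ p : P, p ∈ fall fun x : X => fIIWins P x) :=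
  ⟨fun _ h p => preserved h p, fun h p x => preserved (h x) p⟩

end Pool.Agent.Results.MP_07c8c2_lc.EveryForcingPreserves
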